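import Mathlib

/-!
# Kotzig factorizations of every odd order

A Kotzig factorization of odd order `N`: a decomposition of the complete graph `K_N` into
Hamiltonian cycles together with a near-one-factorization orthogonal to it.  We encode it by
fixed-point-free cyclic permutations `f j` (one for every Hamiltonian cycle) and a commutative
Latin square `col` (the near-one-factorization) of the vertex set.

We show that such a factorization exists for every odd `N`, by a product construction
`N = d * e` with `d` an odd prime.
-/

namespace Pool.Agent.Work.MP_12b649_co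

/-- A Kotzig factorization of order `N`. -/
structure Kotzig (N : ℕ) where
  V : Type
  J : Type
  C : Type
  finV : Finite V
  finJ : Finite J
  finC : Finite C
  cardV : Nat.card V = N
  cardC : Nat.card C = N
  cardJ : 2 * Nat.card J + 1 = N
  f : J → Equiv.Perm V
  col : V → V → C
  trans : ∀ j u v, (f j).SameCycle u v
  col_comm : ∀ u v, col u v = col v u
  col_inj : ∀ u, Function.Injective (col u)
  diag_inj : Function.Injective (fun u => col u u)
  orth : ∀ j, Function.Injective (fun u => col u (f j u))
  cover : ∀ u v, u ≠ v → ∃ j, f j u = v ∨ f j v = u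

namespace Kotzig

variable {N : ℕ} (K : Kotzig N)

instance : Finite K.V := K.finV
instance : Finite K.J := K.finJ
instance : Finite K.C := K.finC

/-- If there is a cycle at all, then it moves every vertex. -/
lemma f_ne (j : K.J) (u : K.V) : K.f j u ≠ u := by
  intro h
  have h1 : ∀ v, v = u := by
    intro v
    have := K.trans j u v
    exact (Equiv.Perm.SameCycle.eq_of_left this h).symm
  have : Subsingleton K.V := ⟨fun a b => by rw [h1 a, h1 b]⟩
  have h2 : Nat.card K.V ≤ 1 := Finite.card_le_one_iff_subsingleton.mpr this
  have h3 : 0 < Nat.card K.J := Nat.card_pos_iff.mpr ⟨⟨j⟩, K.finJ⟩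
  have h4 := K.cardJ
  have h5 := K.cardV
  omega

lemma f_symm_ne (j : K.J) (u : K.V) : (K.f j).symm u ≠ u := by
  intro h
  have := K.f_ne j ((K.f j).symm u)
  rw [Equiv.apply_symm_apply] at this
  exact this h.symm

/-- The neighbour of `u` in the cycle `j`, forward or backward. -/
def nb (u : K.V) (p : K.J × Bool) : K.V := if p.2 then K.f p.1 u else (K.f p.1).symm u

lemma nb_ne (u : K.V) (p : K.J × Bool) : K.nb u p ≠ u := by
  unfold nb
  split_ifs
  · exact K.f_ne _ _
  · exact K.f_symm_ne _ _

lemma nb_injective (u : K.V) : Function.Injective (K.nb u) := by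
  classical
  let g : K.J × Bool → {v : K.V // v ≠ u} := fun p => ⟨K.nb u p, K.nb_ne u p⟩
  have hsurj : Function.Surjective g := by
    rintro ⟨v, hv⟩
    obtain ⟨j, h | h⟩ := K.cover u v hv.symm
    · exact ⟨(j, true), Subtype.ext (by simp only [g, nb, if_true]; exact h)⟩
    · refine ⟨(j, false), Subtype.ext ?_⟩
      simp only [g, nb, Bool.false_eq_true, if_false]
      rw [← h, Equiv.symm_apply_apply]
  have hcard : Nat.card (K.J × Bool) = Nat.card {v : K.V // v ≠ u} := by
    have : Fintype K.V := Fintype.ofFinite _
    rw [Nat.card_prod, Nat.card_eq_fintype_card (α := {v : K.V // v ≠ u}),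
      Fintype.card_subtype_compl, Fintype.card_subtype_eq, ← Nat.card_eq_fintype_card, K.cardV,
      Nat.card_eq_fintype_card (α := Bool), Fintype.card_bool]
    have := K.cardJ
    omega
  have hbij : Function.Bijective g := by
    rw [Nat.bijective_iff_surjective_and_card]
    exact ⟨hsurj, hcard⟩
  intro p p' h
  exact hbij.1 (Subtype.ext h)

end Kotzig

/-- Extend a partial injection to an equivalence. -/
lemma exists_equiv_ext {J A B : Type} [Finite A] [Finite B] (hc : Nat.card A = Nat.card B)
    (a : J → A) (b : J → B) (ha : Function.Injective a) (hb : Function.Injective b) :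
    ∃ φ : A ≃ B, ∀ j, φ (a j) = b j := by
  classical
  obtain ⟨θ⟩ := Finite.card_eq.mp hc
  let e : {x // x ∈ Set.range (θ ∘ a)} ≃ {x // x ∈ Set.range b} :=
    (Equiv.ofInjective _ (θ.injective.comp ha)).symm.trans (Equiv.ofInjective b hb)
  refine ⟨θ.trans e.extendSubtype, fun j => ?_⟩
  have hm : θ (a j) ∈ Set.range (θ ∘ a) := ⟨j, rfl⟩
  rw [Equiv.trans_apply, Equiv.extendSubtype_apply_of_mem e _ hm]
  simp only [e, Equiv.trans_apply]
  have : (⟨θ (a j), hm⟩ : {x // x ∈ Set.range (θ ∘ a)}) =
      Equiv.ofInjective _ (θ.injective.comp ha) j := rfl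
  rw [this, Equiv.symm_apply_apply]
  rfl

end Pool.Agent.Work.MP_12b649_co
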