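import Mathlib
import Pool.Agent.Work.MP_12b649_co.Bd.B01

/-!
# Derangement representations of graphs of odd order: definitions and statements of the items
-/

namespace Pool.Agent.Work.MP_12b649_co.Odd

open Pool.Agent.Work.MP_12b649_co

universe u

/-- `π` is a derangement `k`-representation of the graph `G`: an injective map to the symmetric
group such that distinct `u, v` are adjacent iff `π u i ≠ π v i` for all `i`. -/
def IsRep {V : Type u} (G : SimpleGraph V) {k : ℕ} (π : V → Equiv.Perm (Fin k)) : Prop :=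
  Function.Injective π ∧ ∀ u v, u ≠ v → (G.Adj u v ↔ ∀ i, π u i ≠ π v i)

/-- The derangement representation number: the least positive `k` such that `G` has a derangement
`k`-representation. -/
noncomputable def drn {V : Type u} (G : SimpleGraph V) : ℕ :=
  sInf {k | 0 < k ∧ ∃ π : V → Equiv.Perm (Fin k), IsRep G π}

/-- FAT: if `n` is odd and `G` is not complete multipartite (non-adjacency is not transitive),
then `G` has a derangement `n`-representation. -/
def ClaimFat : Prop :=
  ∀ (n : ℕ) (G : SimpleGraph (Fin n)), Odd n → ¬ (∀ a b c, ¬ G.Adj a b → ¬ G.Adj b c → ¬ G.Adj a c) →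
    ∃ π : Fin n → Equiv.Perm (Fin n), IsRep G π

/-- PACK: intervals of lengths `w q` can be packed into `[s0, n)`, the long ones first. -/
def ClaimPack : Prop :=
  ∀ (Q : Type) [Fintype Q] (w : Q → ℕ) (s0 n : ℕ), s0 + ∑ q, w q ≤ n →
    ∃ s : Q → ℕ, (∀ q, s0 ≤ s q ∧ s q + w q ≤ n) ∧
      (∀ q q', q ≠ q' → s q + w q ≤ s q' ∨ s q' + w q' ≤ s q) ∧
      (∀ q q', w q' < w q → s q + w q ≤ s q')

/-- BLOCK: three permutations `a, a', b` of `ZMod n` with displacements `0, 1, 2`; `a` and `a'`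
are different and agree somewhere, `b` agrees nowhere with `a` and `a'`, and none of the three
has displacement `2` at the point `3`. -/
def ClaimBlock : Prop :=
  ∀ n : ℕ, 5 ≤ n → ∃ a a' b : Equiv.Perm (ZMod n),
    (∀ x, a x = x ∨ a x = x + 1 ∨ a x = x + 2) ∧
    (∀ x, a' x = x ∨ a' x = x + 1 ∨ a' x = x + 2) ∧
    (∀ x, b x = x ∨ b x = x + 1 ∨ b x = x + 2) ∧
    (∀ x, a x ≠ b x) ∧ (∀ x, a' x ≠ b x) ∧ a ≠ a' ∧ (∃ x, a x = a' x) ∧
    a 3 ≠ 3 + 2 ∧ a' 3 ≠ 3 + 2 ∧ b 3 ≠ 3 + 2

/-- MULTI: complete multipartite graphs (non-adjacency is transitive) of order `n ≥ 5` have a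
derangement `n`-representation. -/
def ClaimMulti : Prop :=
  ∀ (n : ℕ) (G : SimpleGraph (Fin n)), 5 ≤ n →
    (∀ a b c, ¬ G.Adj a b → ¬ G.Adj b c → ¬ G.Adj a c) →
    ∃ π : Fin n → Equiv.Perm (Fin n), IsRep G π

end Pool.Agent.Work.MP_12b649_co.Odd
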