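import Mathlib
import Pool.Agent.Work.MP_12b649_co.Bd.B01

/-!
# Derangement representation number: `drn G ≤ |V(G)| + 2`

For every finite graph `G` we show `drn G ≤ |V(G)| + 1` if `|V(G)|` is even and
`drn G ≤ |V(G)| + 2` in general.  The proof uses Kotzig factorizations (a Hamiltonian
decomposition of `K_N` with an orthogonal near-one-factorization) of every odd order `N`.
-/

namespace Pool.Agent.Work.MP_12b649_co.PlusTwoResult

open Pool.Agent.Work.MP_12b649_co

universe u

/-- `π` is a derangement `k`-representation of the graph `G`: an injective map to the symmetric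
group such that distinct `u, v` are adjacent iff `π u i ≠ π v i` for all `i`. -/
def IsRep {V : Type u} (G : SimpleGraph V) {k : ℕ} (π : V → Equiv.Perm (Fin k)) : Prop :=
  Function.Injective π ∧ ∀ u v, u ≠ v → (G.Adj u v ↔ ∀ i, π u i ≠ π v i)

/-- The derangement representation number: the least positive `k` such that `G` has a derangement
`k`-representation. -/
noncomputable def drn {V : Type u} (G : SimpleGraph V) : ℕ :=
  sInf {k | 0 < k ∧ ∃ π : V → Equiv.Perm (Fin k), IsRep G π}

/-- For a cyclic permutation `f` and any set of steps `h`, there is a two-colouring that changes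
exactly at the steps in `h`, except possibly at the step that returns to `o`. -/
lemma exists_sign {W : Type} [Finite W] (f : Equiv.Perm W) (o : W)
    (hf : ∀ v, f.SameCycle o v) (h : W → Prop) :
    ∃ τ : W → Bool, ∀ u, f u ≠ o → (τ u ≠ τ (f u) ↔ h u) := by
  classical
  have hex : ∀ v, ∃ k : ℕ, (f ^ k) o = v := fun v => (hf v).exists_nat_pow_eq
  let pos : W → ℕ := fun v => Nat.find (hex v)
  have hpos : ∀ v, (f ^ pos v) o = v := fun v => Nat.find_spec (hex v)
  have hmin : ∀ v k, (f ^ k) o = v → pos v ≤ k := fun v k hk => Nat.find_min' (hex v) hk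
  have hsucc : ∀ u, f u ≠ o → pos (f u) = pos u + 1 := by
    intro u hu
    apply le_antisymm
    · apply hmin
      rw [pow_succ', Equiv.Perm.mul_apply, hpos]
    · have h0 : pos (f u) ≠ 0 := by
        intro h0
        have := hpos (f u)
        rw [h0, pow_zero, Equiv.Perm.one_apply] at this
        exact hu this.symm
      obtain ⟨k, hk⟩ := Nat.exists_eq_succ_of_ne_zero h0
      have h1 := hpos (f u)
      rw [hk, pow_succ', Equiv.Perm.mul_apply] at h1
      have h2 := hmin u k (f.injective h1)
      omega
  let cnt : ℕ → ℕ := fun n => ((Finset.range n).filter (fun i => h ((f ^ i) o))).card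
  have cnt_succ : ∀ n, cnt (n + 1) = cnt n + if h ((f ^ n) o) then 1 else 0 := by
    intro n
    simp only [cnt]
    rw [Finset.range_add_one, Finset.filter_insert]
    split_ifs with h1
    · rw [Finset.card_insert_of_notMem (by simp)]
    · rfl
  refine ⟨fun v => decide (Even (cnt (pos v))), fun u hu => ?_⟩
  simp only []
  rw [hsucc u hu, cnt_succ, hpos]
  by_cases h1 : h u
  · simp only [h1, if_true, iff_true, ne_eq, decide_eq_decide, Nat.even_add_one]
    tauto
  · simp [h1]

/-- If there is a Kotzig factorization of order `N` then every graph on fewer than `N` vertices has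
a derangement `N`-representation. -/
lemma exists_rep {V : Type u} [Finite V] (G : SimpleGraph V) {N : ℕ} (K : Kotzig N)
    (hV : Nat.card V < N) : ∃ π : V → Equiv.Perm (Fin N), IsRep G π := by
  classical
  have hne : Nonempty K.V := by
    have : 0 < Nat.card K.V := by rw [K.cardV]; omega
    exact (Nat.card_pos_iff.mp this).1
  obtain ⟨o⟩ := hne
  -- embed the vertices
  have hemb : ∃ φ : V → K.V, Function.Injective φ ∧ ∀ a, φ a ≠ o := by
    have : Fintype V := Fintype.ofFinite V
    have : Fintype K.V := Fintype.ofFinite K.V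
    have hcard : Fintype.card V ≤ Fintype.card {v : K.V // v ≠ o} := by
      rw [Fintype.card_subtype_compl, Fintype.card_subtype_eq, ← Nat.card_eq_fintype_card,
        ← Nat.card_eq_fintype_card, K.cardV]
      omega
    obtain ⟨φ⟩ := Function.Embedding.nonempty_of_card_le hcard
    exact ⟨fun a => (φ a).1, fun a b h => φ.injective (Subtype.ext h), fun a => (φ a).2⟩
  obtain ⟨φ, hφ, hφo⟩ := hemb
  let H : K.V → K.V → Prop := fun x y => ∃ a b : V, a ≠ b ∧ ¬ G.Adj a b ∧ φ a = x ∧ φ b = y
  have hH : ∀ x y, H x y → H y x := by
    rintro x y ⟨a, b, h1, h2, h3, h4⟩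
    exact ⟨b, a, h1.symm, fun h => h2 h.symm, h4, h3⟩
  have hHφ : ∀ a b : V, a ≠ b → (H (φ a) (φ b) ↔ ¬ G.Adj a b) := by
    intro a b hab
    constructor
    · rintro ⟨a', b', _, h2, h3, h4⟩
      rw [hφ h3, hφ h4] at h2
      exact h2
    · intro h
      exact ⟨a, b, hab, h, rfl, rfl⟩
  -- signs
  have hsign : ∀ j, ∃ τ : K.V → Bool, ∀ u, K.f j u ≠ o → (τ u ≠ τ (K.f j u) ↔ H u (K.f j u)) :=
    fun j => exists_sign (K.f j) o (fun v => K.trans j o v) (fun u => H u (K.f j u))
  choose τ hτ using hsign
  -- rows
  let row : K.V → Option (K.J × Bool) → K.C := fun u s =>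
    match s with
    | none => K.col u u
    | some p => K.col u (K.nb u (p.1, decide (p.2 = τ p.1 u)))
  have row_none : ∀ u, row u none = K.col u u := fun u => rfl
  have row_some : ∀ u j b, row u (some (j, b)) = K.col u (K.nb u (j, decide (b = τ j u))) :=
    fun u j b => rfl
  have row_inj : ∀ u, Function.Injective (row u) := by
    intro u s s' h
    rcases s with _ | ⟨j, b⟩ <;> rcases s' with _ | ⟨j', b'⟩
    · rfl
    · rw [row_none, row_some] at h
      exact absurd (K.col_inj u h).symm (K.nb_ne _ _)
    · rw [row_none, row_some] at h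
      exact absurd (K.col_inj u h) (K.nb_ne _ _)
    · rw [row_some, row_some] at h
      have h1 := K.nb_injective u (K.col_inj u h)
      simp only [Prod.mk.injEq, decide_eq_decide] at h1
      obtain ⟨h2, h3⟩ := h1
      subst h2
      have : b = b' := by
        cases b <;> cases b' <;> cases hh : τ j u <;> simp_all
      rw [this]
  -- agreements
  have agree1 : ∀ u v, u ≠ v → u ≠ o → v ≠ o → ∀ s, row u s = row v s → H u v := by
    intro u v huv huo hvo s hs
    rcases s with _ | ⟨j, b⟩
    · rw [row_none, row_none] at hs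
      exact absurd (K.diag_inj hs) huv
    · rw [row_some, row_some] at hs
      unfold Kotzig.nb at hs
      by_cases h1 : b = τ j u <;> by_cases h2 : b = τ j v
      · simp only [decide_eq_true h1, decide_eq_true h2, if_true] at hs
        exact absurd (K.orth j hs) huv
      · simp only [decide_eq_true h1, decide_eq_false h2, if_true, Bool.false_eq_true,
          if_false] at hs
        rw [K.col_comm v] at hs
        have h3 : K.col u (K.f j u) = K.col ((K.f j).symm v) (K.f j ((K.f j).symm v)) := by
          rw [hs, Equiv.apply_symm_apply]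
        have h4 := K.orth j h3
        have h5 : K.f j u = v := by rw [h4, Equiv.apply_symm_apply]
        have h6 := (hτ j u (by rw [h5]; exact hvo)).mp (by
          rw [h5, ← h1]
          exact h2)
        rwa [h5] at h6
      · simp only [decide_eq_false h1, decide_eq_true h2, if_true, Bool.false_eq_true,
          if_false] at hs
        rw [K.col_comm u] at hs
        have h3 : K.col ((K.f j).symm u) (K.f j ((K.f j).symm u)) = K.col v (K.f j v) := by
          rw [← hs, Equiv.apply_symm_apply]
        have h4 := K.orth j h3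
        have h5 : K.f j v = u := by rw [← h4, Equiv.apply_symm_apply]
        have h6 := (hτ j v (by rw [h5]; exact huo)).mp (by
          rw [h5, ← h2]
          exact h1)
        rw [h5] at h6
        exact hH _ _ h6
      · simp only [decide_eq_false h1, decide_eq_false h2, Bool.false_eq_true, if_false] at hs
        rw [K.col_comm u, K.col_comm v] at hs
        have h3 : K.col ((K.f j).symm u) (K.f j ((K.f j).symm u)) =
            K.col ((K.f j).symm v) (K.f j ((K.f j).symm v)) := by
          rw [Equiv.apply_symm_apply, Equiv.apply_symm_apply]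
          exact hs
        exact absurd ((K.f j).symm.injective (K.orth j h3)) huv
  have agree2' : ∀ u v j, v ≠ o → K.f j u = v → H u v → ∃ s, row u s = row v s := by
    intro u v j hvo hj hH'
    have h1 := (hτ j u (by rw [hj]; exact hvo)).mpr (by rw [hj]; exact hH')
    rw [hj] at h1
    refine ⟨some (j, τ j u), ?_⟩
    rw [row_some, row_some]
    unfold Kotzig.nb
    simp only [decide_true, decide_eq_false h1, if_true, Bool.false_eq_true, if_false]
    rw [hj, K.col_comm v]
    congr 1
    rw [← hj, Equiv.symm_apply_apply]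
  have agree2 : ∀ u v, u ≠ v → u ≠ o → v ≠ o → H u v → ∃ s, row u s = row v s := by
    intro u v huv huo hvo hH'
    obtain ⟨j, h | h⟩ := K.cover u v huv
    · exact agree2' u v j hvo h hH'
    · obtain ⟨s, hs⟩ := agree2' v u j huo h (hH _ _ hH')
      exact ⟨s, hs.symm⟩
  -- the permutations
  have hcardS : Nat.card (Option (K.J × Bool)) = N := by
    rw [Finite.card_option, Nat.card_prod, Nat.card_eq_fintype_card (α := Bool),
      Fintype.card_bool]
    have := K.cardJ
    omega
  let eS : Option (K.J × Bool) ≃ Fin N := Finite.equivFinOfCardEq hcardS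
  let eC : K.C ≃ Fin N := Finite.equivFinOfCardEq K.cardC
  have row_bij : ∀ u, Function.Bijective (row u) := by
    intro u
    rw [Nat.bijective_iff_injective_and_card]
    exact ⟨row_inj u, by rw [hcardS, K.cardC]⟩
  let π : V → Equiv.Perm (Fin N) := fun a =>
    eS.symm.trans ((Equiv.ofBijective _ (row_bij (φ a))).trans eC)
  have hπ : ∀ a i, π a i = eC (row (φ a) (eS.symm i)) := fun a i => rfl
  refine ⟨π, ?_, ?_⟩
  · intro a b hab
    have h1 : π a (eS none) = π b (eS none) := by rw [hab]
    rw [hπ, hπ, Equiv.symm_apply_apply] at h1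
    exact hφ (K.diag_inj (eC.injective h1))
  · intro a b hab
    have hab' : φ a ≠ φ b := fun h => hab (hφ h)
    constructor
    · intro h i hi
      rw [hπ, hπ] at hi
      have := agree1 _ _ hab' (hφo a) (hφo b) _ (eC.injective hi)
      exact (hHφ a b hab).mp this h
    · intro h
      by_contra hadj
      obtain ⟨s, hs⟩ := agree2 _ _ hab' (hφo a) (hφo b) ((hHφ a b hab).mpr hadj)
      apply h (eS s)
      rw [hπ, hπ, Equiv.symm_apply_apply, hs]

/-- Every finite graph `G` has a derangement `N`-representation for every odd `N > |V(G)|`.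
Hence `drn G ≤ |V(G)| + 1` if `|V(G)|` is even, and `drn G ≤ |V(G)| + 2` if it is odd. -/
theorem result (V : Type u) [Finite V] (G : SimpleGraph V) :
    (∀ N : ℕ, Odd N → Nat.card V < N →
      ∃ π : V → Equiv.Perm (Fin N), IsRep G π) ∧
    (Even (Nat.card V) → drn G ≤ Nat.card V + 1) ∧
    (Odd (Nat.card V) → drn G ≤ Nat.card V + 2) := by
  have h1 : ∀ N : ℕ, Odd N → Nat.card V < N → ∃ π : V → Equiv.Perm (Fin N), IsRep G π := by
    intro N hN hlt
    obtain ⟨K⟩ := exists_kotzig N hN
    exact exists_rep G K hlt
  refine ⟨h1, fun he => ?_, fun ho => ?_⟩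
  · exact Nat.sInf_le ⟨Nat.succ_pos _, h1 _ he.add_one (Nat.lt_succ_self _)⟩
  · exact Nat.sInf_le ⟨Nat.succ_pos _, h1 _ (ho.add_even (by decide)) (by omega)⟩

end Pool.Agent.Work.MP_12b649_co.PlusTwoResult
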